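import Pool.Agent.MP_66cee2_co.K.Top
import Pool.Agent.MP_66cee2_co.D.Main

/-
From the clique lemma for one pair of dimensions to the dichotomy.
-/

namespace Pool.Agent.MP_66cee2_co.K

open MeasureTheory Set Filter Metric Topology Matrix Pool.Agent.MP_66cee2_co.X
  Pool.Agent.MP_66cee2_co.XI Pool.Agent.MP_66cee2_co.D

/-- the clique lemma for one pair of dimensions. -/
def ClqL (d n : ℕ) : Prop :=
  ∀ Q : Fin (d + 1) → Ix n → MP d, Clq Q →
    (∃ k l, k ≠ l ∧ IsoQ (Q k) ∧ IsoQ (Q l)) ∨ ∀ k l, k ≠ l → Ort (Q k) (Q l)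

theorem ortJ_of (hJ : SJt) (hS : SSimp) {d n : ℕ} (hd : 3 ≤ d) (hC : ClqL d n)
    (P : E d → Matrix (Ix n) (Ix n) ℝ) (u : E d → Ix n → ℝ) (hu : JetField P u)
    (hI : AllPair fun x y => ¬ (IsoX u x ∧ IsoX u y)) :
    AllPair fun x y => ∀ Q Q', Jt u x Q → Jt u y Q' → Ort Q Q' := by
  intro w hw
  obtain ⟨v, v0, vl, hv⟩ := hS d w hw
  have huf : UF u := ⟨hu.meas, hu.unit, hu.orth⟩
  have h1 : ∀ᵐ x : E d, ∀ k, ∃ Q, Jt u (x + v k) Q :=
    ae_all_iff.2 fun k => OrtJx.shift (p := fun x => ∃ Q, Jt u x Q)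
      (sCls (sRem sNull) sDen d n P u hu) (v k)
  have h2 : ∀ᵐ x : E d, ∀ k l, k ≠ l → ¬ (IsoX u (x + v k) ∧ IsoX u (x + v l)) := by
    refine ae_all_iff.2 fun k => ae_all_iff.2 fun l => ?_
    by_cases hkl : k = l
    · exact Eventually.of_forall fun x h => absurd hkl h
    · have := OrtJx.shift (hI (v l - v k) (hv l k (Ne.symm hkl))) (v k)
      filter_upwards [this] with x hx _
      rwa [show x + v k + (v l - v k) = x + v l by abel] at hx
  filter_upwards [h1, h2] with x hx hx2 Q Q' hQ hQ'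
  choose R hR using hx
  have h0l : (0 : Fin (d + 1)) ≠ Fin.last d := by
    intro h
    have := congrArg Fin.val h
    simp at this
    omega
  classical
  let S : Fin (d + 1) → Ix n → MP d := fun k =>
    if k = 0 then Q else if k = Fin.last d then Q' else R k
  have hSj : ∀ k, Jt u (x + v k) (S k) := by
    intro k
    by_cases h0 : k = 0
    · simp only [S, h0, if_true, v0, add_zero]; exact hQ
    · by_cases hl : k = Fin.last d
      · simp only [S, hl, h0l.symm, if_true, if_false, vl]; exact hQ'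
      · simp only [S, h0, hl, if_false]; exact hR k
  have hcl : Clq S := ⟨fun k => (hSj k).2, fun k l hkl =>
    (hJ d n u (by omega) huf).2.1 _ _ _ _ (hSj k).1 (hSj l).1 (by
      rw [add_sub_add_left_eq_sub]; exact hv k l hkl)⟩
  rcases hC S hcl with ⟨k, l, hkl, hk, hl⟩ | h
  · exact absurd ⟨⟨_, hSj k, hk⟩, ⟨_, hSj l, hl⟩⟩ (hx2 k l hkl)
  · have := h 0 (Fin.last d) h0l
    simpa only [S, if_true, h0l.symm, if_false] using this

open Dichx in
theorem dich_of (hJ : SJt) (hS : SSimp) (hB : SCaseB) (hV : SVf) (hE : SPvE) {d n : ℕ}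
    (hd : 3 ≤ d) (hC : ClqL d n) : Dich d n := by
  intro P u hP hu
  rcases hB d n P u (by omega) hP hu with h | h
  · exact Or.inl h
  obtain ⟨V, mV, h1, h2⟩ := hV d n P u (by omega) hu
  refine Or.inr ⟨V, mV, h1.mono fun x hx => hx.1, ae_of_all (by omega) (meas_lz mV) ?_, h2⟩
  intro w hw
  filter_upwards [ortJ_of hJ hS hd hC P u hu h w hw, h1,
    (measurePreserving_add_right volume w).quasiMeasurePreserving.ae h1] with x ho hx hy
  obtain ⟨-, Q, R, z, c, j, p, e⟩ := hx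
  obtain ⟨-, Q', R', z', c', j', p', e'⟩ := hy
  have o1 := (hE d n).2 R Q Q' p (ty_ne j.2) (ho Q Q' j j')
  have o2 := (hE d n).2 R' Q' R p' (ty_ne j'.2) o1.symm
  rw [e, e', lz_sm, o2.symm z z', mul_zero]

theorem dich_all {d n : ℕ} (hd : 3 ≤ d) (hC : ClqL d n) : Dich d n :=
  dich_of sJt sSimp (sCaseB sJt) (sVf sJt sPvC sPvH (sPvE sJt) (sVone sPvC sPvH)) (sPvE sJt) hd hC

/-- the clique lemma and the topological theorem give the isometry. -/
theorem allIso_of_clq (h5 : TR.STT3) {d n : ℕ} (hd : 3 ≤ d) (hn : n + 4 ≤ 3 * d)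
    (hC : ClqL d n) : XT.AllIso d n :=
  allIso_pair sTrAll sJ3 sFam h5 d n hd hn (dich_all hd hC)

end Pool.Agent.MP_66cee2_co.K
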