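import Pool.Agent.MP_66cee2_co.TR.Spec

/-
Assembly for an arbitrary pair of dimensions in the range of the topological theorem.
-/

namespace Pool.Agent.MP_66cee2_co.K

open MeasureTheory Pool.Agent.MP_66cee2_co.X Pool.Agent.MP_66cee2_co.D

/-- the dichotomy for one pair of dimensions. -/
def Dich (d n : ℕ) : Prop :=
  ∀ (P : E d → Matrix (Ix n) (Ix n) ℝ) (u : E d → Ix n → ℝ), Field P → JetField P u →
    (∃ g : E d → E n, Iso g ∧ ∀ᵐ x, ∀ a b, P x a b = P x sI sI * lift (g x) a * lift (g x) b) ∨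
      ∃ V : E d → Ix n → ℝ, FlatF V

/-- the dichotomy up to dimension `2 d - 1`. -/
def SDichO : Prop := ∀ d n : ℕ, 3 ≤ d → n + 1 ≤ 2 * d → Dich d n

theorem allIso_pair (h1 : STr) (h2 : SJ3) (h4 : SFam) (h5 : TR.STT3) (d n : ℕ) (hd : 3 ≤ d)
    (hn : n + 4 ≤ 3 * d) (h3 : Dich d n) : XT.AllIso d n := by
  refine h1 d n hd fun P hP => ?_
  obtain ⟨u, hu⟩ := h2 d n hd P hP
  rcases h3 P u hP hu with h | ⟨V, hV⟩
  · exact h
  · obtain ⟨O, hO⟩ := h4 d n V hd hV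
    exact absurd hO (h5 d n O hd hn)

theorem allIso_odd (h1 : STr) (h2 : SJ3) (h3 : SDichO) (h4 : SFam) (h5 : TR.STT3) (d n : ℕ)
    (hd : 3 ≤ d) (hn : n + 1 ≤ 2 * d) : XT.AllIso d n :=
  allIso_pair h1 h2 h4 h5 d n hd (by omega) (h3 d n hd hn)

end Pool.Agent.MP_66cee2_co.K
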